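import Mathlib

/-!
Definitions for MP_91d74e_co (flexibility of list colourings).
-/

namespace Pool.Agent.Lib.MP_91d74e_co

open Finset

variable {V : Type}

/-- `φ` is an `L`-colouring of `G` in which every vertex has at most `d` neighbours of its own
colour. For `d = 0` these are the proper `L`-colourings. -/
def IsListColouring (G : SimpleGraph V) (d : ℕ) (L : V → Finset ℕ) (φ : V → ℕ) : Prop :=
  (∀ v, φ v ∈ L v) ∧ ∀ v, {u | G.Adj v u ∧ φ u = φ v}.ncard ≤ d

open Classical in
/-- `c` bounds the number of edges per vertex of all graphs `H` such that `H` or its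
1-subdivision is a subgraph of `G`.
`edges`: every set `S` of vertices spans at most `c |S|` edges (the pairs are ordered).
`subdiv`: if `S` and `F` are disjoint, every `f ∈ F` is adjacent to the two vertices
`a f ≠ b f` of `S`, and the pairs `{a f, b f}` are distinct, then `|F| ≤ c |S|`. -/
structure Sparse (c : ℕ) (G : SimpleGraph V) : Prop where
  edges : ∀ S : Finset V, ((S ×ˢ S).filter fun p => G.Adj p.1 p.2).card ≤ 2 * (c * S.card)
  subdiv : ∀ (S F : Finset V) (a b : V → V), Disjoint S F →
    (∀ f ∈ F, a f ∈ S ∧ b f ∈ S ∧ a f ≠ b f ∧ G.Adj f (a f) ∧ G.Adj f (b f)) →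
    (∀ f ∈ F, ∀ g ∈ F, s(a f, b f) = s(a g, b g) → f = g) → F.card ≤ c * S.card

end Pool.Agent.Lib.MP_91d74e_co
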