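import Pool.Agent.Lib.MP_91d74e_co.Defs

/-!
An order of the vertices of a sparse graph such that every vertex has few earlier vertices which
are adjacent to it or have a common neighbour with it later than themselves.
-/

namespace Pool.Agent.Lib.MP_91d74e_co

open Finset Classical

variable {V : Type} [Fintype V] {G : SimpleGraph V} {c : ℕ}

/-- The ordered pairs of distinct vertices of `U` with a common neighbour outside `U`. -/
noncomputable def outPairs (G : SimpleGraph V) (U : Finset V) : Finset (V × V) :=
  (U ×ˢ U).filter fun p => p.1 ≠ p.2 ∧ ∃ h, h ∉ U ∧ G.Adj h p.1 ∧ G.Adj h p.2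

theorem card_outPairs_le (hG : Sparse c G) (U : Finset V) (D : ℕ)
    (hD : ∀ h, h ∉ U → (U.filter (G.Adj h)).card ≤ D) :
    (outPairs G U).card ≤ c * U.card * D ^ 2 := by
  -- a maximal set of subdivision vertices
  let P : Finset V → Prop := fun F => ∃ a b : V → V, Disjoint U F ∧
    (∀ f ∈ F, a f ∈ U ∧ b f ∈ U ∧ a f ≠ b f ∧ G.Adj f (a f) ∧ G.Adj f (b f)) ∧
    (∀ f ∈ F, ∀ g ∈ F, s(a f, b f) = s(a g, b g) → f = g)
  have hne : (univ.filter P).Nonempty := by
    refine ⟨∅, ?_⟩
    rw [mem_filter]
    refine ⟨mem_univ _, fun v => v, fun v => v, by simp, by simp, by simp⟩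
  obtain ⟨F, hF, hmax⟩ := exists_max_image (univ.filter P) Finset.card hne
  rw [mem_filter] at hF
  obtain ⟨-, a, b, hdis, hab, hinj⟩ := hF
  have hcard : F.card ≤ c * U.card := hG.subdiv U F a b hdis hab hinj
  have hcov : outPairs G U ⊆ F.biUnion fun f => (U.filter (G.Adj f)) ×ˢ (U.filter (G.Adj f)) := by
    rintro ⟨u, v⟩ huv
    unfold outPairs at huv
    rw [mem_filter, mem_product] at huv
    obtain ⟨⟨hu, hv⟩, hne, h, hhU, hhu, hhv⟩ := huv
    simp only at hu hv hne hhu hhv
    by_contra hcon
    rw [mem_biUnion] at hcon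
    push Not at hcon
    have hno : ∀ f ∈ F, ¬ (G.Adj f u ∧ G.Adj f v) := by
      intro f hf hfuv
      apply hcon f hf
      rw [mem_product, mem_filter, mem_filter]
      exact ⟨⟨hu, hfuv.1⟩, hv, hfuv.2⟩
    have hhF : h ∉ F := fun hh => hno h hh ⟨hhu, hhv⟩
    have hP : P (insert h F) := by
      refine ⟨Function.update a h u, Function.update b h v, ?_, ?_, ?_⟩
      · rw [disjoint_insert_right]
        exact ⟨hhU, hdis⟩
      · intro f hf
        rw [mem_insert] at hf
        rcases hf with rfl | hf
        · rw [Function.update_self, Function.update_self]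
          exact ⟨hu, hv, hne, hhu, hhv⟩
        · have hfh : f ≠ h := fun h0 => hhF (h0 ▸ hf)
          rw [Function.update_of_ne hfh, Function.update_of_ne hfh]
          exact hab f hf
      · have key : ∀ g ∈ F, s(a g, b g) ≠ s(u, v) := by
          intro g hg heq
          apply hno g hg
          obtain ⟨-, -, -, h1, h2⟩ := hab g hg
          rw [Sym2.eq_iff] at heq
          rcases heq with ⟨e1, e2⟩ | ⟨e1, e2⟩
          · rw [e1] at h1
            rw [e2] at h2
            exact ⟨h1, h2⟩
          · rw [e1] at h1
            rw [e2] at h2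
            exact ⟨h2, h1⟩
        intro f hf g hg heq
        rw [mem_insert] at hf hg
        rcases hf with rfl | hf <;> rcases hg with rfl | hg
        · rfl
        · have hgh : g ≠ f := fun h0 => hhF (h0 ▸ hg)
          rw [Function.update_self, Function.update_self, Function.update_of_ne hgh,
            Function.update_of_ne hgh] at heq
          exact (key g hg heq.symm).elim
        · have hgh : f ≠ g := fun h0 => hhF (h0 ▸ hf)
          rw [Function.update_self, Function.update_self, Function.update_of_ne hgh,
            Function.update_of_ne hgh] at heq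
          exact (key f hf heq).elim
        · have h1 : f ≠ h := fun h0 => hhF (h0 ▸ hf)
          have h2 : g ≠ h := fun h0 => hhF (h0 ▸ hg)
          rw [Function.update_of_ne h1, Function.update_of_ne h1, Function.update_of_ne h2,
            Function.update_of_ne h2] at heq
          exact hinj f hf g hg heq
    have h1 := hmax (insert h F) (mem_filter.2 ⟨mem_univ _, hP⟩)
    rw [card_insert_of_notMem hhF] at h1
    omega
  calc (outPairs G U).card
      ≤ (F.biUnion fun f => (U.filter (G.Adj f)) ×ˢ (U.filter (G.Adj f))).card :=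
        card_le_card hcov
    _ ≤ F.card * D ^ 2 := by
        refine card_biUnion_le_card_mul _ _ _ ?_
        intro f hf
        rw [card_product, sq]
        have hfU : f ∉ U := fun h => (disjoint_left.1 hdis h) hf
        exact Nat.mul_le_mul (hD f hfU) (hD f hfU)
    _ ≤ c * U.card * D ^ 2 := Nat.mul_le_mul_right _ hcard

theorem exists_good_vertex (hG : Sparse c G) (U : Finset V) (hU : U.Nonempty) (D : ℕ)
    (hD : ∀ h, h ∉ U → (U.filter (G.Adj h)).card ≤ D) :
    ∃ v ∈ U, (U.filter (G.Adj v)).card ≤ 4 * c ∧
      (U.filter fun u => u ≠ v ∧ ∃ h, h ∉ U ∧ G.Adj h u ∧ G.Adj h v).card ≤ 2 * (c * D ^ 2) := by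
  have hpos := hU.card_pos
  -- degrees
  have e1 : ∑ v ∈ U, (U.filter (G.Adj v)).card ≤ 2 * (c * U.card) := by
    refine le_trans (le_of_eq ?_) (hG.edges U)
    rw [card_filter, sum_product]
    refine sum_congr rfl fun v _ => ?_
    rw [card_filter]
  have e2 : ∑ v ∈ U, (U.filter fun u => u ≠ v ∧ ∃ h, h ∉ U ∧ G.Adj h u ∧ G.Adj h v).card ≤
      c * U.card * D ^ 2 := by
    refine le_trans (le_of_eq ?_) (card_outPairs_le hG U D hD)
    unfold outPairs
    rw [card_filter, sum_product_right]
    refine sum_congr rfl fun v _ => ?_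
    rw [card_filter]
  by_contra hcon
  push Not at hcon
  set B1 := U.filter fun v => 4 * c < (U.filter (G.Adj v)).card with hB1
  set B2 := U.filter fun v => 2 * (c * D ^ 2) <
    (U.filter fun u => u ≠ v ∧ ∃ h, h ∉ U ∧ G.Adj h u ∧ G.Adj h v).card with hB2
  have hcov : U ⊆ B1 ∪ B2 := by
    intro v hv
    rw [mem_union, hB1, hB2, mem_filter, mem_filter]
    by_cases h : (U.filter (G.Adj v)).card ≤ 4 * c
    · right
      exact ⟨hv, hcon v hv h⟩
    · left
      exact ⟨hv, by omega⟩
  have f1 : B1.card * (4 * c + 1) ≤ 2 * (c * U.card) := by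
    calc B1.card * (4 * c + 1) = ∑ v ∈ B1, (4 * c + 1) := by rw [sum_const, smul_eq_mul]
      _ ≤ ∑ v ∈ B1, (U.filter (G.Adj v)).card := by
          refine sum_le_sum fun v hv => ?_
          rw [hB1, mem_filter] at hv
          omega
      _ ≤ ∑ v ∈ U, (U.filter (G.Adj v)).card :=
          sum_le_sum_of_subset (filter_subset _ _)
      _ ≤ _ := e1
  have f2 : B2.card * (2 * (c * D ^ 2) + 1) ≤ c * U.card * D ^ 2 := by
    calc B2.card * (2 * (c * D ^ 2) + 1) = ∑ v ∈ B2, (2 * (c * D ^ 2) + 1) := by
          rw [sum_const, smul_eq_mul]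
      _ ≤ ∑ v ∈ B2, (U.filter fun u => u ≠ v ∧ ∃ h, h ∉ U ∧ G.Adj h u ∧ G.Adj h v).card := by
          refine sum_le_sum fun v hv => ?_
          rw [hB2, mem_filter] at hv
          omega
      _ ≤ ∑ v ∈ U, (U.filter fun u => u ≠ v ∧ ∃ h, h ∉ U ∧ G.Adj h u ∧ G.Adj h v).card :=
          sum_le_sum_of_subset (filter_subset _ _)
      _ ≤ _ := e2
  have g1 : 2 * B1.card < U.card := by
    by_contra h
    push Not at h
    have : U.card * (4 * c + 1) ≤ 2 * B1.card * (4 * c + 1) := Nat.mul_le_mul_right _ h
    nlinarith
  have g2 : 2 * B2.card < U.card := by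
    by_contra h
    push Not at h
    have : U.card * (2 * (c * D ^ 2) + 1) ≤ 2 * B2.card * (2 * (c * D ^ 2) + 1) :=
      Nat.mul_le_mul_right _ h
    nlinarith
  have := (card_le_card hcov).trans (card_union_le B1 B2)
  omega

theorem exists_order_aux (hG : Sparse c G) (n : ℕ) : ∀ U : Finset V, U.card = n →
    (∀ h, h ∉ U → (U.filter (G.Adj h)).card ≤ 4 * c) →
    ∃ ρ : V → ℕ, (∀ v ∈ U, ρ v < n) ∧ Set.InjOn ρ (U : Set V) ∧ ∀ v ∈ U,
      (U.filter fun u => G.Adj v u ∧ ρ u < ρ v).card ≤ 4 * c ∧
      (U.filter fun u => ρ u < ρ v ∧ ∃ h, (h ∉ U ∨ ρ v < ρ h) ∧ G.Adj h u ∧ G.Adj h v).card ≤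
        2 * (c * (4 * c) ^ 2) := by
  induction n with
  | zero =>
    intro U hU _
    rw [card_eq_zero] at hU
    subst hU
    exact ⟨fun _ => 0, by simp, by simp, by simp⟩
  | succ n ih =>
    intro U hU hD
    have hne : U.Nonempty := card_pos.1 (by omega)
    obtain ⟨v0, hv0, h1, h2⟩ := exists_good_vertex hG U hne (4 * c) hD
    have hmono : ∀ h, ((U.erase v0).filter (G.Adj h)).card ≤ (U.filter (G.Adj h)).card :=
      fun h => card_le_card (filter_subset_filter _ (erase_subset _ _))
    obtain ⟨ρ, hlt, hinj, hρ⟩ := ih (U.erase v0) (by rw [card_erase_of_mem hv0]; omega) (by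
      intro h hh
      refine (hmono h).trans ?_
      by_cases hhU : h ∈ U
      · have : h = v0 := by
          by_contra h0
          exact hh (mem_erase.2 ⟨h0, hhU⟩)
        rw [this]
        exact h1
      · exact hD h hhU)
    refine ⟨Function.update ρ v0 n, ?_, ?_, ?_⟩
    · intro v hv
      by_cases h : v = v0
      · rw [h, Function.update_self]
        omega
      · rw [Function.update_of_ne h]
        have := hlt v (mem_erase.2 ⟨h, hv⟩)
        omega
    · intro u hu v hv huv
      rw [mem_coe] at hu hv
      by_cases h : u = v0 <;> by_cases h' : v = v0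
      · rw [h, h']
      · rw [h, Function.update_self, Function.update_of_ne h'] at huv
        have := hlt v (mem_erase.2 ⟨h', hv⟩)
        omega
      · rw [h', Function.update_self, Function.update_of_ne h] at huv
        have := hlt u (mem_erase.2 ⟨h, hu⟩)
        omega
      · rw [Function.update_of_ne h, Function.update_of_ne h'] at huv
        exact hinj (mem_coe.2 (mem_erase.2 ⟨h, hu⟩)) (mem_coe.2 (mem_erase.2 ⟨h', hv⟩)) huv
    · intro v hv
      by_cases h : v = v0
      · subst h
        constructor
        · refine (card_le_card ?_).trans h1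
          intro u hu
          rw [mem_filter] at hu ⊢
          exact ⟨hu.1, hu.2.1⟩
        · refine (card_le_card ?_).trans h2
          intro u hu
          rw [mem_filter] at hu ⊢
          obtain ⟨hu, hlt', h', h3, h4, h5⟩ := hu
          refine ⟨hu, ?_, h', ?_, h4, h5⟩
          · rintro rfl
            exact lt_irrefl _ hlt'
          · rcases h3 with h3 | h3
            · exact h3
            · intro hU'
              rw [Function.update_self, Function.update_of_ne h5.ne] at h3
              have := hlt h' (mem_erase.2 ⟨h5.ne, hU'⟩)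
              omega
      · obtain ⟨k1, k2⟩ := hρ v (mem_erase.2 ⟨h, hv⟩)
        have hvn := hlt v (mem_erase.2 ⟨h, hv⟩)
        have key : ∀ u, Function.update ρ v0 n u < ρ v → u ≠ v0 ∧ ρ u < ρ v := by
          intro u hu
          by_cases h' : u = v0
          · rw [h', Function.update_self] at hu
            omega
          · rw [Function.update_of_ne h'] at hu
            exact ⟨h', hu⟩
        rw [Function.update_of_ne h]
        constructor
        · refine (card_le_card ?_).trans k1
          intro u hu
          rw [mem_filter] at hu ⊢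
          obtain ⟨hu, ha, hlt'⟩ := hu
          obtain ⟨e1, e2⟩ := key u hlt'
          exact ⟨mem_erase.2 ⟨e1, hu⟩, ha, e2⟩
        · refine (card_le_card ?_).trans k2
          intro u hu
          rw [mem_filter] at hu ⊢
          obtain ⟨hu, hlt', h', h3, h4, h5⟩ := hu
          obtain ⟨e1, e2⟩ := key u hlt'
          refine ⟨mem_erase.2 ⟨e1, hu⟩, e2, h', ?_, h4, h5⟩
          by_cases h6 : h' = v0
          · left
            rw [h6]
            exact notMem_erase _ _
          · rw [Function.update_of_ne h6] at h3
            rcases h3 with h3 | h3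
            · left
              exact fun h7 => h3 (mem_of_mem_erase h7)
            · right
              exact h3

/-- `u` is an earlier vertex than `v` in conflict with `v`. -/
def Conf (G : SimpleGraph V) (ρ : V → ℕ) (u v : V) : Prop :=
  ρ u < ρ v ∧ (G.Adj v u ∨ ∃ h, ρ u < ρ h ∧ G.Adj h u ∧ G.Adj h v)

/-- The bound for the number of conflicts. -/
def confBound (c : ℕ) : ℕ := 4 * c + 2 * (c * (4 * c) ^ 2) + (4 * c) * (4 * c)

theorem exists_order (hG : Sparse c G) : ∃ ρ : V → ℕ, Function.Injective ρ ∧ ∀ v,
    (univ.filter fun u => G.Adj v u ∧ ρ u < ρ v).card ≤ 4 * c ∧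
    (univ.filter fun u => Conf G ρ u v).card ≤ confBound c := by
  obtain ⟨ρ, -, hinj, hρ⟩ := exists_order_aux hG _ (univ : Finset V) rfl (by simp)
  refine ⟨ρ, ?_, ?_⟩
  · intro u v huv
    exact hinj (by simp) (by simp) huv
  · intro v
    refine ⟨(hρ v (mem_univ v)).1, ?_⟩
    have hsub : (univ.filter fun u => Conf G ρ u v) ⊆
        ((univ.filter fun u => G.Adj v u ∧ ρ u < ρ v) ∪
        (univ.filter fun u => ρ u < ρ v ∧ ∃ h, (h ∉ (univ : Finset V) ∨ ρ v < ρ h) ∧
          G.Adj h u ∧ G.Adj h v)) ∪
        ((univ.filter fun h => G.Adj v h ∧ ρ h < ρ v).biUnion fun h =>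
          univ.filter fun u => G.Adj h u ∧ ρ u < ρ h) := by
      intro u hu
      rw [mem_filter] at hu
      obtain ⟨-, hlt, h⟩ := hu
      rw [mem_union, mem_union]
      rcases h with h | ⟨h, h1, h2, h3⟩
      · left; left
        rw [mem_filter]
        exact ⟨mem_univ _, h, hlt⟩
      · have hhv : ρ h ≠ ρ v := fun h0 => h3.ne (hinj (by simp) (by simp) h0)
        rcases lt_or_gt_of_ne hhv with h4 | h4
        · right
          rw [mem_biUnion]
          refine ⟨h, mem_filter.2 ⟨mem_univ _, h3.symm, h4⟩, mem_filter.2 ⟨mem_univ _, h2, h1⟩⟩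
        · left; right
          rw [mem_filter]
          exact ⟨mem_univ _, hlt, h, Or.inr h4, h2, h3⟩
    refine (card_le_card hsub).trans ((card_union_le _ _).trans ?_)
    unfold confBound
    refine Nat.add_le_add ((card_union_le _ _).trans
      (Nat.add_le_add (hρ v (mem_univ v)).1 (hρ v (mem_univ v)).2)) ?_
    refine (card_biUnion_le_card_mul _ _ (4 * c) ?_).trans
      (Nat.mul_le_mul_right _ (hρ v (mem_univ v)).1)
    intro h _
    exact (hρ h (mem_univ h)).1

theorem exists_class_colouring (ρ : V → ℕ) (hinj : Function.Injective ρ) (K : ℕ)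
    (hK : ∀ v, (univ.filter fun u => Conf G ρ u v).card ≤ K) :
    ∃ col : V → ℕ, (∀ v, col v ≤ K) ∧ ∀ u v, Conf G ρ u v → col u ≠ col v := by
  have main : ∀ n : ℕ, ∃ col : V → ℕ, (∀ v, col v ≤ K) ∧
      ∀ u v, ρ v < n → Conf G ρ u v → col u ≠ col v := by
    intro n
    induction n with
    | zero => exact ⟨fun _ => 0, fun _ => Nat.zero_le _, fun u v h => by omega⟩
    | succ n ih =>
      obtain ⟨col, h1, h2⟩ := ih
      by_cases hv : ∃ v, ρ v = n
      · obtain ⟨v, hv⟩ := hv
        have hlt : ((univ.filter fun u => Conf G ρ u v).image col).card <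
            (range (K + 1)).card := by
          rw [card_range]
          exact Nat.lt_succ_of_le (card_image_le.trans (hK v))
        obtain ⟨i, hi, hi'⟩ := exists_mem_notMem_of_card_lt_card hlt
        rw [mem_range] at hi
        refine ⟨Function.update col v i, ?_, ?_⟩
        · intro x
          by_cases h : x = v
          · rw [h, Function.update_self]
            omega
          · rw [Function.update_of_ne h]
            exact h1 x
        · intro u x hx hux
          by_cases h : x = v
          · subst h
            have hne : u ≠ x := fun h0 => by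
              rw [h0] at hux
              exact lt_irrefl _ hux.1
            rw [Function.update_self, Function.update_of_ne hne]
            intro h0
            apply hi'
            rw [← h0]
            exact mem_image_of_mem _ (mem_filter.2 ⟨mem_univ _, hux⟩)
          · have hxn : ρ x ≠ n := fun h0 => h (hinj (h0.trans hv.symm))
            have hne : u ≠ v := fun h0 => by
              have := hux.1
              rw [h0] at this
              omega
            rw [Function.update_of_ne h, Function.update_of_ne hne]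
            exact h2 u x (by omega) hux
      · refine ⟨col, h1, ?_⟩
        intro u x hx hux
        refine h2 u x ?_ hux
        have : ρ x ≠ n := fun h0 => hv ⟨x, h0⟩
        omega
  obtain ⟨col, h1, h2⟩ := main ((univ.sup ρ) + 1)
  refine ⟨col, h1, fun u v h => h2 u v ?_ h⟩
  exact Nat.lt_succ_of_le (le_sup (f := ρ) (mem_univ v))

end Pool.Agent.Lib.MP_91d74e_co
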