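import Pool.Agent.Lib.MP_03175e_co.Planar6
import Pool.Agent.Lib.MP_91d74e_co.Defs

/-!
Planar graphs are sparse: `Sparse 3 G`.
-/

namespace Pool.Agent.Lib.MP_91d74e_co

open Pool.Agent.Lib.MP_6a62cd_co.Four Pool.Agent.Lib.MP_6a62cd_co.Four.CountE
open Pool.Agent.Lib.MP_03175e_co.Planar6

open Classical in
theorem darts_le_general {V : Type} [Fintype V] {T G : SimpleGraph V} {pos : V → ℝ × ℝ}
    (hT : IsPlaneDrawing T pos) (hx : Function.Injective fun v => (pos v).1)
    (hcc : ∀ v u w, T.Adj v u → T.Adj v w → 0 < cr (pos v) (pos u) (pos w) →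
      (∀ z, T.Adj v z →
        ¬ (0 < cr (pos v) (pos u) (pos z) ∧ 0 < cr (pos v) (pos z) (pos w))) →
      T.Adj u w ∧ ∀ z, T.Adj u z →
        ¬ (0 < cr (pos u) (pos w) (pos z) ∧ 0 < cr (pos u) (pos z) (pos v)))
    (hGT : G ≤ T) (hV : 2 ≤ Fintype.card V) :
    dartsOn G Finset.univ ≤ 6 * Fintype.card V := by
  let C : Finset (V × V × V) := Finset.univ.filter fun c => Cor T pos c.1 c.2.1 c.2.2
  have hC : ∀ c, c ∈ C ↔ Cor T pos c.1 c.2.1 c.2.2 := fun c => by simp [C]
  have hrho : ∀ c ∈ C, rho c ∈ C := by
    rintro ⟨v, u, w⟩ hc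
    rw [hC] at hc ⊢
    obtain ⟨h1, h2, h3, h4⟩ := hc
    obtain ⟨h5, h6⟩ := hcc v u w h1 h2 h3 h4
    refine ⟨h5, h1.symm, ?_, h6⟩
    change 0 < cr (pos u) (pos w) (pos v)
    rw [cr_cyc]
    exact h3
  have htriC : ∀ c ∈ C, T.Adj c.2.1 c.2.2 := by
    rintro ⟨v, u, w⟩ hc
    exact ((hC _).1 (hrho _ hc)).1
  let M : Finset (V × V × V) := C.filter fun c =>
    Mid T pos 1 c.1 c.2.1 c.2.2 ∨ Mid T pos (-1) c.1 c.2.1 c.2.2
  -- number of corners = 3 * middle corners
  have hCM : C.card = 3 * M.card := by
    let f : V × V × V → ℕ := fun c =>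
      if Mid T pos 1 c.1 c.2.1 c.2.2 ∨ Mid T pos (-1) c.1 c.2.1 c.2.2 then 1 else 0
    have h1 : M.card = ∑ c ∈ C, f c := by
      rw [Finset.card_filter]
    have h2 : ∀ c ∈ C, f c + f (rho c) + f (rho (rho c)) = 1 := by
      rintro ⟨v, u, w⟩ hc
      have hc1 := hrho _ hc
      have hc2 := hrho _ hc1
      have huw := htriC _ hc
      rw [hC] at hc hc1 hc2
      have k1 : (Mid T pos 1 v u w ∨ Mid T pos (-1) v u w) ↔
          ((pos w).1 < (pos v).1 ∧ (pos v).1 < (pos u).1) ∨
            ((pos u).1 < (pos v).1 ∧ (pos v).1 < (pos w).1) := by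
        constructor
        · rintro (h | h)
          · left
            have a1 := h.2.1
            have a2 := h.2.2
            constructor <;> linarith
          · right
            have a1 := h.2.1
            have a2 := h.2.2
            constructor <;> linarith
        · rintro (h | h)
          · left
            exact ⟨hc, by linarith [h.2], by linarith [h.1]⟩
          · right
            exact ⟨hc, by linarith [h.1], by linarith [h.2]⟩
      have k2 : (Mid T pos 1 u w v ∨ Mid T pos (-1) u w v) ↔
          ((pos v).1 < (pos u).1 ∧ (pos u).1 < (pos w).1) ∨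
            ((pos w).1 < (pos u).1 ∧ (pos u).1 < (pos v).1) := by
        constructor
        · rintro (h | h)
          · left
            have a1 := h.2.1
            have a2 := h.2.2
            constructor <;> linarith
          · right
            have a1 := h.2.1
            have a2 := h.2.2
            constructor <;> linarith
        · rintro (h | h)
          · left
            exact ⟨hc1, by linarith [h.2], by linarith [h.1]⟩
          · right
            exact ⟨hc1, by linarith [h.1], by linarith [h.2]⟩
      have k3 : (Mid T pos 1 w v u ∨ Mid T pos (-1) w v u) ↔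
          ((pos u).1 < (pos w).1 ∧ (pos w).1 < (pos v).1) ∨
            ((pos v).1 < (pos w).1 ∧ (pos w).1 < (pos u).1) := by
        constructor
        · rintro (h | h)
          · left
            have a1 := h.2.1
            have a2 := h.2.2
            constructor <;> linarith
          · right
            have a1 := h.2.1
            have a2 := h.2.2
            constructor <;> linarith
        · rintro (h | h)
          · left
            exact ⟨hc2, by linarith [h.2], by linarith [h.1]⟩
          · right
            exact ⟨hc2, by linarith [h.1], by linarith [h.2]⟩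
      change (if Mid T pos 1 v u w ∨ Mid T pos (-1) v u w then 1 else 0) +
        (if Mid T pos 1 u w v ∨ Mid T pos (-1) u w v then 1 else 0) +
        (if Mid T pos 1 w v u ∨ Mid T pos (-1) w v u then 1 else 0) = 1
      rw [if_congr k1 rfl rfl, if_congr k2 rfl rfl, if_congr k3 rfl rfl]
      have n1 : (pos v).1 ≠ (pos u).1 := fun h => hc.1.ne (hx h)
      have n2 : (pos v).1 ≠ (pos w).1 := fun h => hc.2.1.ne (hx h)
      have n3 : (pos u).1 ≠ (pos w).1 := fun h => huw.ne (hx h)
      rcases lt_or_gt_of_ne n1 with l1 | l1 <;> rcases lt_or_gt_of_ne n2 with l2 | l2 <;>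
        rcases lt_or_gt_of_ne n3 with l3 | l3 <;>
        simp only [l1, l2, l3, l1.not_gt, l2.not_gt, l3.not_gt, and_true, and_false, or_true,
          or_false, if_true, if_false, and_self] <;> linarith
    rw [h1, ← three C hrho f, Finset.sum_congr rfl h2]
    simp
  -- darts
  let DT : Finset (V × V) := Finset.univ.filter fun p => T.Adj p.1 p.2
  let DG : Finset (V × V) := Finset.univ.filter fun p => G.Adj p.1 p.2
  let HH : Finset (V × V) := Finset.univ.filter fun p =>
    T.Adj p.1 p.2 ∧ ∀ z, T.Adj p.1 z → cr (pos p.1) (pos p.2) (pos z) ≤ 0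
  have hinj : Set.InjOn (fun c : V × V × V => (c.1, c.2.1)) (C : Set (V × V × V)) := by
    rintro ⟨v, u, w⟩ h ⟨v', u', w'⟩ h' heq
    rw [Finset.mem_coe, hC] at h h'
    simp only [Prod.mk.injEq] at heq
    obtain ⟨rfl, rfl⟩ := heq
    have h2 : w = w' := Cor.unique hT hx h h'
    rw [h2]
  have hDT : DT.card ≤ HH.card + C.card := by
    have : DT ⊆ HH ∪ C.image fun c => (c.1, c.2.1) := by
      rintro ⟨v, u⟩ h
      simp only [DT, Finset.mem_filter, Finset.mem_univ, true_and] at h
      rw [Finset.mem_union]
      by_cases h' : ∀ z, T.Adj v z → cr (pos v) (pos u) (pos z) ≤ 0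
      · left
        simp only [HH, Finset.mem_filter, Finset.mem_univ, true_and]
        exact ⟨h, h'⟩
      · right
        push Not at h'
        obtain ⟨z, hz, hz'⟩ := h'
        obtain ⟨w, hw⟩ := exists_cor h hz (fun h0 => h.ne (hT.1 h0).symm) hz'
        exact Finset.mem_image.2 ⟨(v, u, w), (hC _).2 hw, rfl⟩
    refine (Finset.card_le_card this).trans ((Finset.card_union_le _ _).trans ?_)
    exact Nat.add_le_add_left Finset.card_image_le _
  have hDG : DG.card ≤ DT.card := by
    refine Finset.card_le_card ?_
    intro p hp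
    simp only [DT, DG, Finset.mem_filter, Finset.mem_univ, true_and] at hp ⊢
    exact hGT hp
  have hsum : M.card + HH.card ≤ ∑ v, wt1 T pos v := by
    have m1 : M.card ≤ ∑ v, ((Finset.univ.filter fun q : V × V => Mid T pos 1 v q.1 q.2).card +
        (Finset.univ.filter fun q : V × V => Mid T pos (-1) v q.1 q.2).card) := by
      have : M.card = ∑ v, (M.filter fun c => c.1 = v).card :=
        Finset.card_eq_sum_card_fiberwise fun c _ => Finset.mem_coe.2 (Finset.mem_univ _)
      rw [this]
      refine Finset.sum_le_sum fun v _ => ?_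
      refine le_trans ?_ (Finset.card_union_le _ _)
      refine Finset.card_le_card_of_injOn (fun c : V × V × V => c.2) ?_ ?_
      · rintro ⟨v', u, w⟩ h
        rw [Finset.mem_coe, Finset.mem_filter] at h
        obtain ⟨h, h0⟩ := h
        simp only at h0
        subst h0
        rw [Finset.mem_filter] at h
        rw [Finset.mem_coe, Finset.mem_union]
        simpa using h.2
      · rintro ⟨v', u, w⟩ h ⟨v'', u', w'⟩ h' heq
        rw [Finset.mem_coe, Finset.mem_filter] at h h'
        have e1 := h.2
        have e2 := h'.2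
        simp only at e1 e2 heq
        subst e1
        subst e2
        rw [heq]
    have m2 : HH.card ≤ ∑ v, ((Finset.univ.filter fun u : V => Hs T pos 1 v u).card +
        (Finset.univ.filter fun u : V => Hs T pos (-1) v u).card) := by
      have : HH.card = ∑ v, (HH.filter fun c => c.1 = v).card :=
        Finset.card_eq_sum_card_fiberwise fun c _ => Finset.mem_coe.2 (Finset.mem_univ _)
      rw [this]
      refine Finset.sum_le_sum fun v _ => ?_
      refine le_trans ?_ (Finset.card_union_le _ _)
      refine Finset.card_le_card_of_injOn (fun c : V × V => c.2) ?_ ?_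
      · rintro ⟨v', u⟩ h
        rw [Finset.mem_coe, Finset.mem_filter] at h
        obtain ⟨h, h0⟩ := h
        simp only at h0
        subst h0
        simp only [HH, Finset.mem_filter, Finset.mem_univ, true_and] at h
        rw [Finset.mem_coe, Finset.mem_union]
        simp only [Finset.mem_filter, Finset.mem_univ, true_and]
        rcases lt_or_gt_of_ne (x_ne hx h.1.ne') with h1 | h1
        · right
          exact ⟨h.1, h.2, by linarith⟩
        · left
          exact ⟨h.1, h.2, by linarith⟩
      · rintro ⟨v', u⟩ h ⟨v'', u'⟩ h' heq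
        rw [Finset.mem_coe, Finset.mem_filter] at h h'
        have e1 := h.2
        have e2 := h'.2
        simp only at e1 e2 heq
        subst e1
        subst e2
        rw [heq]
    have m3 : ∑ v, wt1 T pos v = ∑ v, ((Finset.univ.filter fun q : V × V =>
        Mid T pos 1 v q.1 q.2).card +
        (Finset.univ.filter fun q : V × V => Mid T pos (-1) v q.1 q.2).card) +
        ∑ v, ((Finset.univ.filter fun u : V => Hs T pos 1 v u).card +
        (Finset.univ.filter fun u : V => Hs T pos (-1) v u).card) := by
      rw [← Finset.sum_add_distrib]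
      refine Finset.sum_congr rfl fun v _ => ?_
      unfold wt1
      ring
    rw [m3]
    omega
  have hfin := sum_wt1 hT hx hV
  have hD : dartsOn G Finset.univ = DG.card := by
    unfold dartsOn
    simp only [DG]
    congr 1
  rw [hD]
  omega

open Classical in
theorem planar_darts_le {V : Type} [Finite V] {G : SimpleGraph V} (h : IsPlanar G)
    (S : Finset V) : dartsOn G S ≤ 6 * S.card := by
  rcases Nat.lt_or_ge S.card 2 with hc | hc
  · have h1 : dartsOn G S = 0 := by
      unfold dartsOn
      rw [Finset.card_eq_zero, Finset.filter_eq_empty_iff]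
      rintro ⟨a, b⟩ hab h0
      rw [Finset.mem_product] at hab
      exact h0.ne (Finset.card_le_one.1 (by omega) a hab.1 b hab.2)
    rw [h1]
    exact Nat.zero_le _
  · have h1 := h.comap (Subtype.val : S → V) Subtype.val_injective
    obtain ⟨pos, hpos⟩ := h1
    obtain ⟨pos', hpos', hx⟩ := exists_shear hpos
    obtain ⟨T, hGT, hT, hmax⟩ := exists_maximal hpos'
    have h6 := darts_le_general hT hx
      (fun v u w hu hw hc hcons => corner_closed hT hmax hu hw hc hcons) hGT (by simpa using hc)
    rw [dartsOn_eq_comap]
    simpa using h6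

theorem IsPlanar.mono {V : Type} {G H : SimpleGraph V} (h : IsPlanar G) (hHG : H ≤ G) :
    IsPlanar H := by
  obtain ⟨pos, h1, h2, h3⟩ := h
  exact ⟨pos, h1, fun u v w huv => h2 u v w (hHG huv), fun u v x y huv hxy =>
    h3 u v x y (hHG huv) (hHG hxy)⟩

open Classical in
theorem planar_sparse {V : Type} [Finite V] {G : SimpleGraph V} (h : IsPlanar G) :
    Sparse 3 G := by
  refine ⟨?_, ?_⟩
  · intro S
    have := planar_darts_le h S
    unfold dartsOn at this
    omega
  · intro S F a b hdis hab hinj
    rcases F.eq_empty_or_nonempty with hF | hF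
    · rw [hF]
      simp
    -- the subdivided graph
    let H : SimpleGraph V :=
      { Adj := fun x y => (x ∈ F ∧ (y = a x ∨ y = b x)) ∨ (y ∈ F ∧ (x = a y ∨ x = b y))
        symm := ⟨by
          intro x y hxy
          rcases hxy with hxy | hxy
          · exact Or.inr hxy
          · exact Or.inl hxy⟩
        loopless := ⟨by
          intro x hx
          rcases hx with ⟨h1, h2 | h2⟩ | ⟨h1, h2 | h2⟩
          · exact (Finset.disjoint_left.1 hdis ((h2.symm ▸ (hab x h1).1 : x ∈ S))) h1
          · exact (Finset.disjoint_left.1 hdis ((h2.symm ▸ (hab x h1).2.1 : x ∈ S))) h1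
          · exact (Finset.disjoint_left.1 hdis ((h2.symm ▸ (hab x h1).1 : x ∈ S))) h1
          · exact (Finset.disjoint_left.1 hdis ((h2.symm ▸ (hab x h1).2.1 : x ∈ S))) h1⟩ }
    have hHadj : ∀ x y, H.Adj x y ↔
        (x ∈ F ∧ (y = a x ∨ y = b x)) ∨ (y ∈ F ∧ (x = a y ∨ x = b y)) := fun x y => Iff.rfl
    have hHG : H ≤ G := by
      intro x y hxy
      rw [hHadj] at hxy
      rcases hxy with ⟨h1, h2 | h2⟩ | ⟨h1, h2 | h2⟩
      · rw [h2]; exact (hab x h1).2.2.2.1
      · rw [h2]; exact (hab x h1).2.2.2.2
      · rw [h2]; exact (hab y h1).2.2.2.1.symm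
      · rw [h2]; exact (hab y h1).2.2.2.2.symm
    -- bipartite
    have hbip : ∀ x y, H.Adj x y → (x ∈ F ∧ y ∈ S ∧ y ∉ F) ∨ (x ∈ S ∧ x ∉ F ∧ y ∈ F) := by
      intro x y hxy
      rw [hHadj] at hxy
      rcases hxy with ⟨h1, h2⟩ | ⟨h1, h2⟩
      · left
        have h3 : y ∈ S := by
          rcases h2 with h2 | h2
          · rw [h2]; exact (hab x h1).1
          · rw [h2]; exact (hab x h1).2.1
        exact ⟨h1, h3, fun h4 => Finset.disjoint_left.1 hdis h3 h4⟩
      · right
        have h3 : x ∈ S := by
          rcases h2 with h2 | h2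
          · rw [h2]; exact (hab y h1).1
          · rw [h2]; exact (hab y h1).2.1
        exact ⟨h3, fun h4 => Finset.disjoint_left.1 hdis h3 h4, h1⟩
    have hpar : ∀ x y, H.Adj x y → (x ∈ F ↔ y ∉ F) := by
      intro x y hxy
      rcases hbip x y hxy with ⟨h1, -, h2⟩ | ⟨-, h1, h2⟩
      · exact ⟨fun _ => h2, fun _ => h1⟩
      · exact ⟨fun h3 => absurd h3 h1, fun h3 => absurd h2 h3⟩
    have hnb : ∀ f, f ∈ F → ∀ y, H.Adj f y → y = a f ∨ y = b f := by
      intro f hf y hy
      rw [hHadj] at hy
      rcases hy with ⟨-, h2⟩ | ⟨h1, h2⟩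
      · exact h2
      · exfalso
        have h3 : f ∈ S := by
          rcases h2 with h2 | h2
          · rw [h2]; exact (hab y h1).1
          · rw [h2]; exact (hab y h1).2.1
        exact Finset.disjoint_left.1 hdis h3 hf
    have hpair : ∀ f ∈ F, ∀ x y, H.Adj f x → H.Adj f y → x ≠ y → s(x, y) = s(a f, b f) := by
      intro f hf x y hx hy hxy
      rcases hnb f hf x hx with h1 | h1 <;> rcases hnb f hf y hy with h2 | h2
      · exact absurd (h1.trans h2.symm) hxy
      · rw [h1, h2]
      · rw [h1, h2, Sym2.eq_swap]
      · exact absurd (h1.trans h2.symm) hxy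
    have h6 := plane_sparse6 (IsPlanar.mono h hHG) (by
        intro x y z h1 h2 h3
        have e1 := hpar _ _ h1
        have e2 := hpar _ _ h2
        have e3 := hpar _ _ h3
        clear h1 h2 h3
        tauto)
      (by
        intro x y z t hxz hyt h1 h2 h3 h4
        have e1 := hpar _ _ h1
        have e2 := hpar _ _ h2
        have e3 := hpar _ _ h3
        by_cases hxF : x ∈ F
        · have hzF : z ∈ F := by
            by_contra h0
            exact (e2.not.1 (by simpa using e1.1 hxF)) |> fun h => h (by simpa using h0)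
          have k1 := hpair x hxF y t h1 h4.symm hyt
          have k2 := hpair z hzF y t h2.symm h3 hyt
          exact hxz (hinj x hxF z hzF (k1.symm.trans k2))
        · have hyF : y ∈ F := by
            by_contra h0
            exact hxF (e1.2 h0)
          have htF : t ∈ F := by
            have e4 := hpar _ _ h4
            exact by_contra fun h0 => hxF (by
              by_contra h5
              exact h0 (e4.2 h5))
          have k1 := hpair y hyF x z h1.symm h2 hxz
          have k2 := hpair t htF x z h4 h3.symm hxz
          exact hyt (hinj y hyF t htF (k1.symm.trans k2)))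
      (by
        intro x y z t u h1 h2 h3 h4 h5
        have e1 := hpar _ _ h1
        have e2 := hpar _ _ h2
        have e3 := hpar _ _ h3
        have e4 := hpar _ _ h4
        have e5 := hpar _ _ h5
        clear h1 h2 h3 h4 h5
        tauto)
      (S ∪ F) (hF.mono Finset.subset_union_right)
    -- count the darts
    have hcount : 4 * F.card ≤ dartsOn H (S ∪ F) := by
      unfold dartsOn
      let f1 : V → V × V := fun f => (f, a f)
      let f2 : V → V × V := fun f => (f, b f)
      let f3 : V → V × V := fun f => (a f, f)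
      let f4 : V → V × V := fun f => (b f, f)
      have hsub : (F.image f1 ∪ F.image f2) ∪ (F.image f3 ∪ F.image f4) ⊆
          ((S ∪ F) ×ˢ (S ∪ F)).filter fun p => H.Adj p.1 p.2 := by
        intro p hp
        rw [Finset.mem_filter, Finset.mem_product]
        rw [Finset.mem_union, Finset.mem_union, Finset.mem_union, Finset.mem_image,
          Finset.mem_image, Finset.mem_image, Finset.mem_image] at hp
        rcases hp with (⟨f, hf, rfl⟩ | ⟨f, hf, rfl⟩) | (⟨f, hf, rfl⟩ | ⟨f, hf, rfl⟩)
        · exact ⟨⟨Finset.mem_union_right _ hf, Finset.mem_union_left _ (hab f hf).1⟩,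
            Or.inl ⟨hf, Or.inl rfl⟩⟩
        · exact ⟨⟨Finset.mem_union_right _ hf, Finset.mem_union_left _ (hab f hf).2.1⟩,
            Or.inl ⟨hf, Or.inr rfl⟩⟩
        · exact ⟨⟨Finset.mem_union_left _ (hab f hf).1, Finset.mem_union_right _ hf⟩,
            Or.inr ⟨hf, Or.inl rfl⟩⟩
        · exact ⟨⟨Finset.mem_union_left _ (hab f hf).2.1, Finset.mem_union_right _ hf⟩,
            Or.inr ⟨hf, Or.inr rfl⟩⟩
      refine le_trans ?_ ((Finset.card_le_card hsub).trans (le_of_eq (by congr)))
      have c1 : (F.image f1).card = F.card := Finset.card_image_of_injective _ fun x y hxy => by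
        simpa [f1] using (Prod.ext_iff.1 hxy).1
      have c2 : (F.image f2).card = F.card := Finset.card_image_of_injective _ fun x y hxy => by
        simpa [f2] using (Prod.ext_iff.1 hxy).1
      have c3 : (F.image f3).card = F.card := Finset.card_image_of_injective _ fun x y hxy => by
        simpa [f3] using (Prod.ext_iff.1 hxy).2
      have c4 : (F.image f4).card = F.card := Finset.card_image_of_injective _ fun x y hxy => by
        simpa [f4] using (Prod.ext_iff.1 hxy).2
      have d12 : Disjoint (F.image f1) (F.image f2) := by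
        rw [Finset.disjoint_left]
        intro p hp hp'
        rw [Finset.mem_image] at hp hp'
        obtain ⟨f, hf, rfl⟩ := hp
        obtain ⟨g, hg, he⟩ := hp'
        simp only [f1, f2, Prod.mk.injEq] at he
        obtain ⟨rfl, he⟩ := he
        exact (hab g hg).2.2.1 he.symm
      have d34 : Disjoint (F.image f3) (F.image f4) := by
        rw [Finset.disjoint_left]
        intro p hp hp'
        rw [Finset.mem_image] at hp hp'
        obtain ⟨f, hf, rfl⟩ := hp
        obtain ⟨g, hg, he⟩ := hp'
        simp only [f3, f4, Prod.mk.injEq] at he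
        obtain ⟨he, rfl⟩ := he
        exact (hab g hg).2.2.1 he.symm
      have d : Disjoint (F.image f1 ∪ F.image f2) (F.image f3 ∪ F.image f4) := by
        rw [Finset.disjoint_left]
        intro p hp hp'
        have q1 : p.1 ∈ F := by
          rw [Finset.mem_union, Finset.mem_image, Finset.mem_image] at hp
          rcases hp with ⟨f, hf, rfl⟩ | ⟨f, hf, rfl⟩ <;> exact hf
        have q2 : p.1 ∈ S := by
          rw [Finset.mem_union, Finset.mem_image, Finset.mem_image] at hp'
          rcases hp' with ⟨f, hf, rfl⟩ | ⟨f, hf, rfl⟩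
          · exact (hab f hf).1
          · exact (hab f hf).2.1
        exact Finset.disjoint_left.1 hdis q2 q1
      rw [Finset.card_union_of_disjoint d, Finset.card_union_of_disjoint d12,
        Finset.card_union_of_disjoint d34, c1, c2, c3, c4]
      omega
    have hun : (S ∪ F).card = S.card + F.card := Finset.card_union_of_disjoint hdis
    omega

end Pool.Agent.Lib.MP_91d74e_co
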