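import Pool.Agent.Lib.MP_91d74e_co.Order

/-!
Selection of the requests to satisfy.
-/

namespace Pool.Agent.Lib.MP_91d74e_co

open Finset Classical

variable {V : Type} [Fintype V] {G : SimpleGraph V} {c : ℕ}

/-- pigeonhole: a colour class of large weight -/
theorem exists_heavy_class (col : V → ℕ) (K : ℕ) (hcol : ∀ v, col v ≤ K) (w : V → ℝ)
    (hw : ∀ v, 0 ≤ w v) :
    ∃ i, ∑ v, w v ≤ (K + 1) * ∑ v ∈ univ.filter (fun v => col v = i), w v := by
  by_contra hcon
  push Not at hcon
  have h1 : ∑ v, w v = ∑ i ∈ range (K + 1), ∑ v ∈ univ.filter (fun v => col v = i), w v := by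
    rw [sum_fiberwise_of_maps_to]
    intro v _
    rw [mem_range]
    exact Nat.lt_succ_of_le (hcol v)
  have h2 : (K + 1) * ∑ i ∈ range (K + 1), ∑ v ∈ univ.filter (fun v => col v = i), w v <
      ∑ i ∈ range (K + 1), ∑ v, w v := by
    rw [mul_sum]
    exact sum_lt_sum_of_nonempty ⟨0, by simp⟩ fun i _ => hcon i
  rw [← h1, sum_const, card_range, nsmul_eq_mul] at h2
  push_cast at h2
  exact lt_irrefl _ h2

/-- random deletion of one colour from every list -/
theorem exists_deletion (k D : ℕ) (L : V → Finset ℕ) (hL : ∀ v, (L v).card = k + 1)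
    (r : V → ℕ) (N : V → Finset V) (hN : ∀ v, (N v).card ≤ D) (w : V → ℝ) (hw : ∀ v, 0 ≤ w v) :
    ∃ s : V → ℕ, (∀ v, s v ∈ L v) ∧
      ∑ v, w v ≤ (k + 1) ^ D *
        ∑ x ∈ univ.filter (fun x => ∀ h ∈ N x, r x ∈ L h → s h = r x), w x := by
  let Ω : Finset (V → ℕ) := Fintype.piFinset L
  have hΩ : (Ω.card : ℝ) = (k + 1) ^ Fintype.card V := by
    simp only [Ω]
    rw [Fintype.card_piFinset, prod_congr rfl fun v _ => hL v, prod_const, card_univ]
    push_cast
    rfl
  have hΩne : Ω.Nonempty := by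
    rw [Fintype.piFinset_nonempty]
    intro v
    rw [← card_pos, hL]
    omega
  by_contra hcon
  push Not at hcon
  have h1 : ∀ s ∈ Ω, (k + 1 : ℝ) ^ D *
      ∑ x ∈ univ.filter (fun x => ∀ h ∈ N x, r x ∈ L h → s h = r x), w x < ∑ v, w v := by
    intro s hs
    exact hcon s (Fintype.mem_piFinset.1 hs)
  have h2 := sum_lt_sum_of_nonempty hΩne h1
  rw [← mul_sum, sum_const, nsmul_eq_mul, hΩ] at h2
  have h3 : ∑ s ∈ Ω, ∑ x ∈ univ.filter (fun x => ∀ h ∈ N x, r x ∈ L h → s h = r x), w x =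
      ∑ x, w x * ((Ω.filter fun s => ∀ h ∈ N x, r x ∈ L h → s h = r x).card : ℝ) := by
    have : ∀ s ∈ Ω, ∑ x ∈ univ.filter (fun x => ∀ h ∈ N x, r x ∈ L h → s h = r x), w x =
        ∑ x, if (∀ h ∈ N x, r x ∈ L h → s h = r x) then w x else 0 := by
      intro s _
      rw [sum_filter]
    rw [sum_congr rfl this, sum_comm]
    refine sum_congr rfl fun x _ => ?_
    rw [card_filter]
    push_cast
    rw [mul_sum]
    refine sum_congr rfl fun s _ => ?_
    split_ifs <;> simp
  have h4 : ∀ x, (k + 1 : ℝ) ^ Fintype.card V ≤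
      (k + 1) ^ D * ((Ω.filter fun s => ∀ h ∈ N x, r x ∈ L h → s h = r x).card : ℝ) := by
    intro x
    let B : Finset V := (N x).filter fun h => r x ∈ L h
    have hB : B.card ≤ D := (card_le_card (filter_subset _ _)).trans (hN x)
    have hsub : Fintype.piFinset (fun h => if h ∈ B then {r x} else L h) ⊆
        Ω.filter fun s => ∀ h ∈ N x, r x ∈ L h → s h = r x := by
      intro s hs
      rw [Fintype.mem_piFinset] at hs
      rw [mem_filter, Fintype.mem_piFinset]
      constructor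
      · intro h
        have := hs h
        by_cases hh : h ∈ B
        · rw [if_pos hh, mem_singleton] at this
          rw [this]
          exact (mem_filter.1 hh).2
        · rwa [if_neg hh] at this
      · intro h hh hr
        have := hs h
        rw [if_pos (mem_filter.2 ⟨hh, hr⟩), mem_singleton] at this
        exact this
    have hcard : (Fintype.piFinset (fun h => if h ∈ B then {r x} else L h)).card =
        (k + 1) ^ (Fintype.card V - B.card) := by
      rw [Fintype.card_piFinset]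
      have : ∀ h ∈ (univ : Finset V), (if h ∈ B then ({r x} : Finset ℕ) else L h).card =
          if h ∈ B then 1 else (k + 1) := by
        intro h _
        split_ifs
        · rfl
        · exact hL h
      rw [prod_congr rfl this, prod_ite, prod_const_one, one_mul, prod_const]
      congr 1
      rw [← card_univ, ← card_sdiff_of_subset (subset_univ B)]
      congr 1
      ext h
      simp
    have h5 := card_le_card hsub
    rw [hcard] at h5
    have h6 : (k + 1 : ℝ) ^ Fintype.card V ≤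
        (k + 1) ^ D * (k + 1) ^ (Fintype.card V - B.card) := by
      rw [← pow_add]
      refine pow_le_pow_right₀ (by linarith [(Nat.cast_nonneg k : (0:ℝ) ≤ k)]) ?_
      omega
    refine h6.trans (mul_le_mul_of_nonneg_left ?_ (by positivity))
    exact_mod_cast h5
  rw [h3] at h2
  have h7 : (k + 1 : ℝ) ^ Fintype.card V * ∑ v, w v ≤ (k + 1) ^ D *
      ∑ x, w x * ((Ω.filter fun s => ∀ h ∈ N x, r x ∈ L h → s h = r x).card : ℝ) := by
    rw [mul_sum, mul_sum]
    refine sum_le_sum fun x _ => ?_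
    calc (k + 1 : ℝ) ^ Fintype.card V * w x ≤
        ((k + 1) ^ D * ((Ω.filter fun s => ∀ h ∈ N x, r x ∈ L h → s h = r x).card : ℝ)) * w x :=
          mul_le_mul_of_nonneg_right (h4 x) (hw x)
      _ = _ := by ring
  exact lt_irrefl _ (lt_of_lt_of_le h2 h7)

/-- The selection: an independent set `R` of vertices of large weight and a colour `s h` of every
list such that deleting the colours `s h` keeps the colours requested in `R` away from the
neighbours of `R`. -/
theorem selection (hG : Sparse c G) (k : ℕ) (L : V → Finset ℕ) (hL : ∀ v, (L v).card = k + 1)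
    (r : V → ℕ) (w : V → ℝ) (hw : ∀ v, 0 ≤ w v) :
    ∃ (R : Finset V) (s : V → ℕ), (∀ v, s v ∈ L v) ∧ (∀ x ∈ R, ∀ y ∈ R, ¬ G.Adj x y) ∧
      (∀ x ∈ R, ∀ h, G.Adj x h → r x ∈ L h → s h = r x) ∧
      ∑ v, w v ≤ ((confBound c + 1) * (k + 1) ^ (4 * c)) * ∑ x ∈ R, w x := by
  obtain ⟨ρ, hinj, hρ⟩ := exists_order hG
  obtain ⟨col, hc1, hc2⟩ := exists_class_colouring ρ hinj (confBound c) fun v => (hρ v).2
  obtain ⟨i, hi⟩ := exists_heavy_class col _ hc1 w hw
  -- the class
  have hindep : ∀ x y, col x = i → col y = i → ¬ Conf G ρ x y := by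
    intro x y hx hy h
    exact hc2 x y h (hx.trans hy.symm)
  obtain ⟨s, hs1, hs2⟩ := exists_deletion k (4 * c) L hL r
    (fun x => univ.filter fun h => G.Adj x h ∧ ρ h < ρ x) (fun v => (hρ v).1)
    (fun v => if col v = i then w v else 0) (fun v => by
      split_ifs
      · exact hw v
      · exact le_rfl)
  set R : Finset V := univ.filter fun x => col x = i ∧ ∀ h, G.Adj x h → ρ h < ρ x →
    r x ∈ L h → s h = r x with hR
  have hRmem : ∀ x, x ∈ R ↔ col x = i ∧ ∀ h, G.Adj x h → ρ h < ρ x →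
    r x ∈ L h → s h = r x := fun x => by simp [hR]
  have hRi : ∀ x ∈ R, ∀ y ∈ R, ¬ G.Adj x y := by
    intro x hx y hy h
    rw [hRmem] at hx hy
    have hne : ρ x ≠ ρ y := fun h0 => h.ne (hinj h0)
    rcases lt_or_gt_of_ne hne with h1 | h1
    · exact hindep x y hx.1 hy.1 ⟨h1, Or.inl h.symm⟩
    · exact hindep y x hy.1 hx.1 ⟨h1, Or.inl h⟩
  -- common neighbours are earlier
  have hcommon : ∀ x ∈ R, ∀ y ∈ R, x ≠ y → ∀ h, G.Adj x h → G.Adj y h → ρ h < ρ x := by
    intro x hx y hy hxy h h1 h2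
    rw [hRmem] at hx hy
    by_contra hcon
    push Not at hcon
    have hxh : ρ x < ρ h := lt_of_le_of_ne hcon fun h0 => h1.ne (hinj h0)
    have hne : ρ x ≠ ρ y := fun h0 => hxy (hinj h0)
    rcases lt_or_gt_of_ne hne with h3 | h3
    · exact hindep x y hx.1 hy.1 ⟨h3, Or.inr ⟨h, hxh, h1.symm, h2.symm⟩⟩
    · exact hindep y x hy.1 hx.1 ⟨h3, Or.inr ⟨h, h3.trans hxh, h2.symm, h1.symm⟩⟩
  refine ⟨R, fun h => if hh : ∃ x ∈ R, G.Adj x h ∧ ρ x < ρ h ∧ r x ∈ L h then r hh.choose
    else s h, ?_, hRi, ?_, ?_⟩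
  · intro h
    simp only
    split_ifs with hh
    · exact hh.choose_spec.2.2.2
    · exact hs1 h
  · intro x hx h hxh hr
    simp only
    split_ifs with hh
    · obtain ⟨h1, h2, h3, h4⟩ := hh.choose_spec
      by_cases hxy : hh.choose = x
      · rw [hxy]
      · exfalso
        have := hcommon _ h1 x hx hxy h h2 hxh
        omega
    · have hne : ρ h ≠ ρ x := fun h0 => hxh.ne (hinj h0).symm
      rcases lt_or_gt_of_ne hne with h1 | h1
      · exact ((hRmem x).1 hx).2 h hxh h1 hr
      · exact (hh ⟨x, hx, hxh, h1, hr⟩).elim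
  · have e1 : ∑ v, (if col v = i then w v else 0) = ∑ v ∈ univ.filter (fun v => col v = i), w v := by
      rw [sum_filter]
    have e2 : ∑ x ∈ univ.filter (fun x => ∀ h ∈ univ.filter (fun h => G.Adj x h ∧ ρ h < ρ x),
        r x ∈ L h → s h = r x), (if col x = i then w x else 0) = ∑ x ∈ R, w x := by
      rw [← sum_filter, filter_filter]
      refine sum_congr ?_ fun _ _ => rfl
      ext x
      rw [hRmem, mem_filter]
      constructor
      · rintro ⟨-, h1, h2⟩
        exact ⟨h2, fun h h3 h4 h5 => h1 h (mem_filter.2 ⟨mem_univ _, h3, h4⟩) h5⟩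
      · rintro ⟨h1, h2⟩
        refine ⟨mem_univ _, fun h h3 h5 => ?_, h1⟩
        rw [mem_filter] at h3
        exact h2 h h3.2.1 h3.2.2 h5
    rw [e1, e2] at hs2
    calc ∑ v, w v ≤ (confBound c + 1) * ∑ v ∈ univ.filter (fun v => col v = i), w v := hi
      _ ≤ (confBound c + 1) * ((k + 1) ^ (4 * c) * ∑ x ∈ R, w x) :=
          mul_le_mul_of_nonneg_left hs2 (by positivity)
      _ = _ := by ring

/-- Main theorem for sparse graphs. -/
theorem flexible_of_sparse (hG : Sparse c G) (k d : ℕ) (L : V → Finset ℕ)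
    (hL : ∀ v, (L v).card = k + 1)
    (hrob : ∀ s : V → ℕ, (∀ v, s v ∈ L v) →
      ∃ ψ : V → ℕ, IsListColouring G d (fun v => (L v).erase (s v)) ψ)
    (w : V → ℕ → ℝ) (hw : ∀ v a, 0 ≤ w v a) :
    ∃ φ : V → ℕ, IsListColouring G d L φ ∧
      ∑ v, ∑ a ∈ L v, w v a ≤ ((k + 1) * ((confBound c + 1) * (k + 1) ^ (4 * c))) *
        ∑ v, w v (φ v) := by
  have hne : ∀ v, (L v).Nonempty := fun v => by
    rw [← card_pos, hL]
    omega
  have hmax : ∀ v, ∃ a ∈ L v, ∀ b ∈ L v, w v b ≤ w v a := fun v =>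
    exists_max_image (L v) (w v) (hne v)
  choose r hr1 hr2 using hmax
  obtain ⟨R, s, hs, hR, hRs, hsum⟩ := selection hG k L hL r (fun v => w v (r v))
    (fun v => hw v (r v))
  obtain ⟨ψ, hψ1, hψ2⟩ := hrob s hs
  refine ⟨fun v => if v ∈ R then r v else ψ v, ⟨?_, ?_⟩, ?_⟩
  · intro v
    simp only
    split_ifs
    · exact hr1 v
    · exact mem_of_mem_erase (hψ1 v)
  · intro v
    by_cases hv : v ∈ R
    · have : {u | G.Adj v u ∧ (if u ∈ R then r u else ψ u) = (if v ∈ R then r v else ψ v)} = ∅ := by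
        rw [Set.eq_empty_iff_forall_notMem]
        rintro u ⟨h1, h2⟩
        rw [if_pos hv, if_neg (fun hu => hR v hv u hu h1)] at h2
        have h3 := hψ1 u
        rw [mem_erase, h2] at h3
        exact h3.1 (hRs v hv u h1 h3.2).symm
      simp only
      rw [this, Set.ncard_empty]
      exact Nat.zero_le _
    · refine le_trans (Set.ncard_le_ncard ?_ (Set.toFinite _)) (hψ2 v)
      rintro u ⟨h1, h2⟩
      simp only at h2
      rw [if_neg hv] at h2
      by_cases hu : u ∈ R
      · exfalso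
        rw [if_pos hu] at h2
        have h3 := hψ1 v
        rw [mem_erase, ← h2] at h3
        exact h3.1 (hRs u hu v h1.symm h3.2).symm
      · rw [if_neg hu] at h2
        exact ⟨h1, h2⟩
  · have h1 : ∑ v, ∑ a ∈ L v, w v a ≤ (k + 1) * ∑ v, w v (r v) := by
      rw [mul_sum]
      refine sum_le_sum fun v _ => ?_
      calc ∑ a ∈ L v, w v a ≤ ∑ a ∈ L v, w v (r v) := sum_le_sum fun a ha => hr2 v a ha
        _ = (k + 1) * w v (r v) := by
          rw [sum_const, hL, nsmul_eq_mul]
          push_cast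
          ring
    have h2 : ∑ x ∈ R, w x (r x) ≤ ∑ v, w v (if v ∈ R then r v else ψ v) := by
      calc ∑ x ∈ R, w x (r x) = ∑ x ∈ R, w x (if x ∈ R then r x else ψ x) :=
            sum_congr rfl fun x hx => by rw [if_pos hx]
        _ ≤ _ := sum_le_sum_of_subset_of_nonneg (subset_univ _) fun x _ _ => hw _ _
    calc ∑ v, ∑ a ∈ L v, w v a ≤ (k + 1) * ∑ v, w v (r v) := h1
      _ ≤ (k + 1) * (((confBound c + 1) * (k + 1) ^ (4 * c)) * ∑ x ∈ R, w x (r x)) :=
          mul_le_mul_of_nonneg_left hsum (by positivity)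
      _ = ((k + 1) * ((confBound c + 1) * (k + 1) ^ (4 * c))) * ∑ x ∈ R, w x (r x) := by ring
      _ ≤ _ := mul_le_mul_of_nonneg_left h2 (by positivity)

end Pool.Agent.Lib.MP_91d74e_co
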